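import Mathlib
import Pool.Agent.Helper32.SierTri.Defs
import Pool.Agent.Helper32.SierQ.Data

/-!
# The local check inside one tile of side 16
-/

namespace Pool.Agent.Helper32.SierQ

open Pool.Agent.Helper32.SierTri

/-- the small triangles of one tile -/
def SmallTri (t : ℕ × ℕ) : Prop := t.1 < 16 ∧ t.2 < 16 ∧ t.1 &&& t.2 = 0

/-- the graph of one tile -/
def Loc : SimpleGraph (ℕ × ℕ) where
  Adj p q := p ≠ q ∧ ∃ t, SmallTri t ∧ p ∈ tri t ∧ q ∈ tri t
  symm := ⟨fun _ _ h => ⟨h.1.symm, h.2.imp fun _ ht => ⟨ht.1, ht.2.2, ht.2.1⟩⟩⟩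
  loopless := ⟨fun _ h => h.1 rfl⟩

/-- vertices of the tile -/
def IsV (p : ℕ × ℕ) : Prop := ∃ t, SmallTri t ∧ p ∈ tri t

/-- index of a lattice point in bit masks -/
def idx (p : ℕ × ℕ) : ℕ := p.1 + 17 * p.2

/-- one step of breadth first search on bit masks -/
def step (S : ℕ) : ℕ :=
  S ||| ((fun H => H ||| (H <<< 1) ||| (H <<< 17)) ((S ||| (S >>> 1) ||| (S >>> 17)) &&& triMask))

/-- ball on bit masks -/
def ball : ℕ → ℕ → ℕ
  | 0, S => S
  | r + 1, S => step (ball r S)

theorem mem_tri {p t : ℕ × ℕ} : p ∈ tri t ↔ p = t ∨ p = (t.1 + 1, t.2) ∨ p = (t.1, t.2 + 1) := by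
  simp [tri]

theorem triMask_spec : ∀ i < 16, ∀ j < 16, i &&& j = 0 → triMask.testBit (i + 17 * j) = true := by
  decide +kernel

theorem step_mono {S v : ℕ} (h : S.testBit v = true) : (step S).testBit v = true := by
  simp [step, h]

theorem ball_mono {S v r r' : ℕ} (hr : r ≤ r') (h : (ball r S).testBit v = true) :
    (ball r' S).testBit v = true := by
  induction r', hr using Nat.le_induction with
  | base => exact h
  | succ k _ ih => exact step_mono ih

theorem step_adj {S : ℕ} {p q t : ℕ × ℕ} (ht : SmallTri t) (hp : p ∈ tri t) (hq : q ∈ tri t)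
    (h : S.testBit (idx p) = true) : (step S).testBit (idx q) = true := by
  obtain ⟨i, j⟩ := t
  obtain ⟨h1, h2, h3⟩ := ht
  have hm : triMask.testBit (i + 17 * j) = true := triMask_spec i h1 j h2 h3
  have hH : ((S ||| (S >>> 1) ||| (S >>> 17)) &&& triMask).testBit (i + 17 * j) = true := by
    rw [Nat.testBit_and, hm, Nat.testBit_or, Nat.testBit_or, Nat.testBit_shiftRight,
      Nat.testBit_shiftRight]
    rw [mem_tri] at hp
    rcases hp with rfl | rfl | rfl
    · simp only [idx] at h; simp [h]
    · have : 1 + (i + 17 * j) = idx (i + 1, j) := by simp [idx]; ring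
      rw [this]; simp [h]
    · have : 17 + (i + 17 * j) = idx (i, j + 1) := by simp [idx]; ring
      rw [this]; simp [h]
  unfold step
  rw [Nat.testBit_or]
  generalize (S ||| (S >>> 1) ||| (S >>> 17)) &&& triMask = H at hH
  simp only [Nat.testBit_or, Nat.testBit_shiftLeft]
  rw [mem_tri] at hq
  rcases hq with rfl | rfl | rfl
  · have : idx (i, j) = i + 17 * j := rfl
    simp only [this]; simp [hH]
  · have : idx (i + 1, j) - 1 = i + 17 * j := by simp only [idx]; omega
    have h4 : 1 ≤ idx (i + 1, j) := by simp only [idx]; omega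
    simp only [this]; simp [hH, h4]
  · have : idx (i, j + 1) - 17 = i + 17 * j := by simp only [idx]; omega
    have h4 : 17 ≤ idx (i, j + 1) := by simp only [idx]; omega
    simp only [this]; simp [hH, h4]

theorem ball_walk {p q : ℕ × ℕ} (w : Loc.Walk p q) :
    (ball w.length (1 <<< idx q)).testBit (idx p) = true := by
  induction w with
  | nil => simp [ball]
  | cons h w ih =>
    have h' := h
    obtain ⟨_, t, ht, h1, h2⟩ := h'
    rw [SimpleGraph.Walk.length_cons]
    exact step_adj ht h2 h1 ih

theorem ball_edist {p q : ℕ × ℕ} {r : ℕ} (h : Loc.edist p q ≤ r) :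
    (ball r (1 <<< idx q)).testBit (idx p) = true := by
  have hne : Loc.edist p q ≠ ⊤ := by
    intro h'; rw [h'] at h; exact absurd h (by simp)
  obtain ⟨w, hw⟩ := SimpleGraph.exists_walk_of_edist_ne_top hne
  rw [← hw] at h
  exact ball_mono (by exact_mod_cast h) (ball_walk w)

/-- the colour of the lattice point with index `v`, read off from the list of masks -/
def colOf (ms : List ℕ) (v : ℕ) : ℕ := ms.findIdx (fun m => m.testBit v)

/-- mask of colour `c` -/
def msk (ms : List ℕ) (c : ℕ) : ℕ := ms.getD c 0

/-- threshold of colour `c` in the tile `w` at its corner leading to the tile `x` -/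
def thr (w x c : ℕ) : ℕ := (thrTab.getD (4 * w + x) []).getD c 0

/-- colour of the common corner of the tiles `w` and `x` -/
def gam (w x : ℕ) : ℕ := gamTab.getD (4 * w + x) 0

/-- the masks of the tile `w` with corners leading to `x`, `y`, `z` -/
def masks (w x y z : ℕ) : List ℕ := maskTab.getD (64 * w + 16 * x + 4 * y + z) []

/-- check of the thresholds of the tile `w` at the corner with index `P` leading to `x` -/
def chkCorner (ms : List ℕ) (w x : ℕ) (P : ℕ) : Bool :=
  (List.range (K + 1)).all fun c =>
    (ball (thr w x c - 1) (1 <<< P) &&& msk ms c) == ((1 <<< P) &&& msk ms c)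

/-- the complete check of a tile -/
def chk (w x y z : ℕ) : Bool :=
  (masks w x y z).length == K + 1 &&
  msk (masks w x y z) 0 == 0 &&
  (masks w x y z).foldr (· ||| ·) 0 == (triMask ||| (triMask <<< 1) ||| (triMask <<< 17)) &&
  colOf (masks w x y z) 0 == gam w x &&
  colOf (masks w x y z) 16 == gam w y &&
  colOf (masks w x y z) 272 == gam w z &&
  chkCorner (masks w x y z) w x 0 &&
  chkCorner (masks w x y z) w y 16 &&
  chkCorner (masks w x y z) w z 272 &&
  (List.range 289).all fun v =>
    !((triMask ||| (triMask <<< 1) ||| (triMask <<< 17)).testBit v) ||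
      (ball (colOf (masks w x y z) v) (1 <<< v) &&& msk (masks w x y z) (colOf (masks w x y z) v)) ==
        1 <<< v

/-- all orientations of all tiles pass the check -/
def chkAll : Bool :=
  (List.range 4).all fun w => (List.range 4).all fun x => (List.range 4).all fun y =>
    (List.range 4).all fun z =>
      (w == x || w == y || w == z || x == y || x == z || y == z) || chk w x y z

theorem chkAll_true : chkAll = true := by
  decide +kernel

theorem chk_all {w x y z : ℕ} (hw : w < 4) (hx : x < 4) (hy : y < 4) (hz : z < 4)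
    (h1 : w ≠ x) (h2 : w ≠ y) (h3 : w ≠ z) (h4 : x ≠ y) (h5 : x ≠ z) (h6 : y ≠ z) :
    chk w x y z = true := by
  have h := chkAll_true
  unfold chkAll at h
  rw [List.all_eq_true] at h
  have h' := h w (List.mem_range.2 hw)
  rw [List.all_eq_true] at h'
  have h'' := h' x (List.mem_range.2 hx)
  rw [List.all_eq_true] at h''
  have h3' := h'' y (List.mem_range.2 hy)
  rw [List.all_eq_true] at h3'
  have h4' := h3' z (List.mem_range.2 hz)
  simpa [h1, h2, h3, h4, h5, h6] using h4'

/-- the thresholds on the two sides of a common corner match -/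
def thrAll : Bool :=
  (List.range 4).all fun w => (List.range 4).all fun x => (w == x) ||
    (List.range (K + 1)).all fun c => (c == 0) ||
      (Nat.ble 1 (thr w x c) && Nat.blt c (thr w x c + thr x w c))

theorem thrAll_true : thrAll = true := by
  decide +kernel

theorem thr_ok {w x c : ℕ} (hw : w < 4) (hx : x < 4) (h1 : w ≠ x) (hc : c < K + 1) (hc1 : 1 ≤ c) :
    1 ≤ thr w x c ∧ c < thr w x c + thr x w c := by
  have h := thrAll_true
  unfold thrAll at h
  rw [List.all_eq_true] at h
  have h' := h w (List.mem_range.2 hw)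
  rw [List.all_eq_true] at h'
  have h'' := h' x (List.mem_range.2 hx)
  rw [Bool.or_eq_true] at h''
  rcases h'' with h'' | h''
  · exact absurd (by simpa using h'') h1
  · rw [List.all_eq_true] at h''
    have h3 := h'' c (List.mem_range.2 hc)
    rw [Bool.or_eq_true, Bool.and_eq_true] at h3
    rcases h3 with h3 | ⟨h3, h4⟩
    · have : c = 0 := by simpa using h3
      omega
    · exact ⟨Nat.le_of_ble_eq_true h3, by simpa [Nat.blt_eq] using h4⟩

theorem gam_symm : ∀ w < 4, ∀ x < 4, gam w x = gam x w := by
  decide +kernel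

theorem corner_far : ∀ P ∈ [0, 16, 272], ∀ Q ∈ [0, 16, 272], P ≠ Q →
    (ball 15 (1 <<< P)).testBit Q = false := by
  decide +kernel

end Pool.Agent.Helper32.SierQ
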