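import Mathlib
import Pool.Agent.Helper32.SierQ.Local

/-!
# Tiles and corner types
-/

namespace Pool.Agent.Helper32.SierQ

open Pool.Agent.Helper32.SierTri

/-- last base-three digit of the tile `(I, J)`: `1` (origin), `2` (right), `3` (top) -/
def dg (I J : ℕ) : ℕ := if I % 2 = 1 then 2 else if J % 2 = 1 then 3 else 1

/-- exchange of `0` and `d` -/
def swp (d q : ℕ) : ℕ := if q = 0 then d else if q = d then 0 else q

/-- `lab n 0 I J` is the label of the tile `(I, J)`, and `lab n i I J` (`i = 1, 2, 3`) is the label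
of the tile to which its corner `i` leads -/
def lab : ℕ → ℕ → ℕ → ℕ → ℕ
  | 0, q, _, _ => q
  | n + 1, q, I, J => lab n (swp (dg I J) q) (I / 2) (J / 2)

theorem dg_cases (I J : ℕ) : dg I J = 1 ∨ dg I J = 2 ∨ dg I J = 3 := by
  unfold dg; split_ifs <;> simp

theorem lab_perm : ∀ n I J, lab n 0 I J < 4 ∧ lab n 1 I J < 4 ∧ lab n 2 I J < 4 ∧ lab n 3 I J < 4 ∧
    lab n 0 I J ≠ lab n 1 I J ∧ lab n 0 I J ≠ lab n 2 I J ∧ lab n 0 I J ≠ lab n 3 I J ∧
    lab n 1 I J ≠ lab n 2 I J ∧ lab n 1 I J ≠ lab n 3 I J ∧ lab n 2 I J ≠ lab n 3 I J := by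
  intro n
  induction n with
  | zero => intro I J; simp [lab]
  | succ n ih =>
    intro I J
    obtain ⟨a0, a1, a2, a3, h1, h2, h3, h4, h5, h6⟩ := ih (I / 2) (J / 2)
    rcases dg_cases I J with h | h | h <;> simp only [lab, h, swp] <;>
      simp only [if_true, one_ne_zero, OfNat.ofNat_ne_zero, if_false, OfNat.ofNat_ne_one,
        OfNat.one_ne_ofNat, Nat.reduceEqDiff] <;>
      exact ⟨by assumption, by assumption, by assumption, by assumption,
        by first | assumption | exact Ne.symm (by assumption),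
        by first | assumption | exact Ne.symm (by assumption),
        by first | assumption | exact Ne.symm (by assumption),
        by first | assumption | exact Ne.symm (by assumption),
        by first | assumption | exact Ne.symm (by assumption),
        by first | assumption | exact Ne.symm (by assumption)⟩

theorem land_half {I J : ℕ} (h : I &&& J = 0) : (I / 2) &&& (J / 2) = 0 := by
  rw [← Nat.and_div_two, h]

theorem land_par {I J : ℕ} (h : I &&& J = 0) : ¬ (I % 2 = 1 ∧ J % 2 = 1) := by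
  intro h'
  have := Nat.and_mod_two_eq_one.2 h'
  rw [h] at this
  simp at this

theorem opp12 : ∀ n I J, (I + 1) &&& J = 0 → I &&& J = 0 → I + 1 < 2 ^ n →
    lab n 2 I J = lab n 0 (I + 1) J ∧ lab n 1 (I + 1) J = lab n 0 I J := by
  intro n
  induction n with
  | zero => intro I J _ _ h; simp at h
  | succ n ih =>
    intro I J h1 h2 h3
    have p1 := land_par h1
    have p2 := land_par h2
    have q1 := land_half h1
    have q2 := land_half h2
    rcases Nat.mod_two_eq_zero_or_one I with hI | hI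
    · have hI' : (I + 1) % 2 = 1 := by omega
      have hJ : J % 2 = 0 := by omega
      have e1 : dg (I + 1) J = 2 := by simp [dg, hI']
      have e2 : dg I J = 1 := by simp [dg, hI, hJ]
      have e3 : (I + 1) / 2 = I / 2 := by omega
      simp [lab, swp, e1, e2, e3]
    · have hI' : (I + 1) % 2 = 0 := by omega
      have hJ : J % 2 = 0 := by omega
      have e1 : dg (I + 1) J = 1 := by simp [dg, hI', hJ]
      have e2 : dg I J = 2 := by simp [dg, hI]
      have e3 : (I + 1) / 2 = I / 2 + 1 := by omega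
      rw [e3] at q1
      have := ih (I / 2) (J / 2) q1 q2 (by rw [pow_succ] at h3; omega)
      simp only [lab, swp, e1, e2, if_true, e3, one_ne_zero, OfNat.ofNat_ne_zero, if_false]
      exact ⟨this.2.symm, this.1.symm⟩

theorem opp13 : ∀ n I J, I &&& (J + 1) = 0 → I &&& J = 0 → J + 1 < 2 ^ n →
    lab n 3 I J = lab n 0 I (J + 1) ∧ lab n 1 I (J + 1) = lab n 0 I J := by
  intro n
  induction n with
  | zero => intro I J _ _ h; simp at h
  | succ n ih =>
    intro I J h1 h2 h3
    have p1 := land_par h1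
    have p2 := land_par h2
    have q1 := land_half h1
    have q2 := land_half h2
    rcases Nat.mod_two_eq_zero_or_one J with hJ | hJ
    · have hJ' : (J + 1) % 2 = 1 := by omega
      have hI : I % 2 = 0 := by omega
      have e1 : dg I (J + 1) = 3 := by simp [dg, hJ', hI]
      have e2 : dg I J = 1 := by simp [dg, hI, hJ]
      have e3 : (J + 1) / 2 = J / 2 := by omega
      simp [lab, swp, e1, e2, e3]
    · have hJ' : (J + 1) % 2 = 0 := by omega
      have hI : I % 2 = 0 := by omega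
      have e1 : dg I (J + 1) = 1 := by simp [dg, hJ', hI]
      have e2 : dg I J = 3 := by simp [dg, hI, hJ]
      have e3 : (J + 1) / 2 = J / 2 + 1 := by omega
      rw [e3] at q1
      have := ih (I / 2) (J / 2) q1 q2 (by rw [pow_succ] at h3; omega)
      simp only [lab, swp, e1, e2, if_true, e3, one_ne_zero, OfNat.ofNat_ne_zero, if_false]
      exact ⟨this.2.symm, this.1.symm⟩

theorem opp23 : ∀ n I J, I &&& (J + 1) = 0 → (I + 1) &&& J = 0 → I + 1 < 2 ^ n → J + 1 < 2 ^ n →
    lab n 2 I (J + 1) = lab n 0 (I + 1) J ∧ lab n 3 (I + 1) J = lab n 0 I (J + 1) := by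
  intro n
  induction n with
  | zero => intro I J _ _ h; simp at h
  | succ n ih =>
    intro I J h1 h2 h3 h4
    have p1 := land_par h1
    have p2 := land_par h2
    have q1 := land_half h1
    have q2 := land_half h2
    rcases Nat.mod_two_eq_zero_or_one I with hI | hI
    · have hI' : (I + 1) % 2 = 1 := by omega
      have hJ : J % 2 = 0 := by omega
      have hJ' : (J + 1) % 2 = 1 := by omega
      have e1 : dg I (J + 1) = 3 := by simp [dg, hI, hJ']
      have e2 : dg (I + 1) J = 2 := by simp [dg, hI']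
      have e3 : (I + 1) / 2 = I / 2 := by omega
      have e4 : (J + 1) / 2 = J / 2 := by omega
      simp [lab, swp, e1, e2, e3, e4]
    · have hI' : (I + 1) % 2 = 0 := by omega
      have hJ' : (J + 1) % 2 = 0 := by omega
      have hJ : J % 2 = 1 := by omega
      have e1 : dg I (J + 1) = 2 := by simp [dg, hI]
      have e2 : dg (I + 1) J = 3 := by simp [dg, hI', hJ]
      have e3 : (I + 1) / 2 = I / 2 + 1 := by omega
      have e4 : (J + 1) / 2 = J / 2 + 1 := by omega
      rw [e4] at q1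
      rw [e3] at q2
      have := ih (I / 2) (J / 2) q1 q2 (by rw [pow_succ] at h3; omega)
        (by rw [pow_succ] at h4; omega)
      simp only [lab, swp, e1, e2, if_true, e3, e4, OfNat.ofNat_ne_zero, if_false]
      exact ⟨this.2.symm, this.1.symm⟩

/-! ### the base points -/

theorem base_succ {n : ℕ} {p : ℕ × ℕ} : p ∈ base (n + 1) ↔ p ∈ base n ∨
    (∃ q ∈ base n, p = (q.1 + 2 ^ n, q.2)) ∨ (∃ q ∈ base n, p = (q.1, q.2 + 2 ^ n)) := by
  simp only [base, Finset.mem_union, Finset.mem_image, or_assoc]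
  refine or_congr Iff.rfl (or_congr ?_ ?_)
  · exact exists_congr fun q => and_congr Iff.rfl eq_comm
  · exact exists_congr fun q => and_congr Iff.rfl eq_comm

theorem base_mono {n : ℕ} : base n ⊆ base (n + 1) := fun _ h => base_succ.2 (Or.inl h)

theorem base_prop : ∀ n, ∀ p ∈ base n, p.1 < 2 ^ n ∧ p.2 < 2 ^ n ∧ p.1 &&& p.2 = 0 := by
  intro n
  induction n with
  | zero => intro p hp; simp [base] at hp; subst hp; simp
  | succ n ih =>
    intro p hp
    have h2 : 2 ^ (n + 1) = 2 ^ n + 2 ^ n := by rw [pow_succ]; ring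
    rcases base_succ.1 hp with h | ⟨q, hq, rfl⟩ | ⟨q, hq, rfl⟩
    · obtain ⟨a, b, c⟩ := ih p h
      exact ⟨by omega, by omega, c⟩
    · obtain ⟨a, b, c⟩ := ih q hq
      refine ⟨by simp only; omega, by simp only; omega, ?_⟩
      simp only
      apply Nat.eq_of_testBit_eq
      intro i
      have hc : (q.1 &&& q.2).testBit i = false := by rw [c]; simp
      rw [Nat.testBit_and] at hc ⊢
      rcases lt_trichotomy i n with h | h | h
      · rw [add_comm, Nat.testBit_two_pow_add_gt h, hc]; simp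
      · subst h; rw [Nat.testBit_lt_two_pow b]; simp
      · have : q.2.testBit i = false := Nat.testBit_lt_two_pow
          (lt_of_lt_of_le b (Nat.pow_le_pow_right (by norm_num) h.le))
        rw [this]; simp
    · obtain ⟨a, b, c⟩ := ih q hq
      refine ⟨by simp only; omega, by simp only; omega, ?_⟩
      simp only
      apply Nat.eq_of_testBit_eq
      intro i
      have hc : (q.1 &&& q.2).testBit i = false := by rw [c]; simp
      rw [Nat.testBit_and] at hc ⊢
      rcases lt_trichotomy i n with h | h | h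
      · rw [add_comm q.2, Nat.testBit_two_pow_add_gt h, hc]; simp
      · subst h; rw [Nat.testBit_lt_two_pow a]; simp
      · have : q.1.testBit i = false := Nat.testBit_lt_two_pow
          (lt_of_lt_of_le a (Nat.pow_le_pow_right (by norm_num) h.le))
        rw [this]; simp

/-- decomposition of the small triangles of stage `n + 4` into tiles -/
theorem base_tile : ∀ n, ∀ p ∈ base (n + 4), ∃ A ∈ base n, ∃ s ∈ base 4,
    p = (16 * A.1 + s.1, 16 * A.2 + s.2) := by
  intro n
  induction n with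
  | zero => intro p hp; exact ⟨(0, 0), by simp [base], p, hp, by simp⟩
  | succ n ih =>
    intro p hp
    have h2 : 2 ^ (n + 4) = 16 * 2 ^ n := by rw [pow_add]; norm_num; ring
    rw [show n + 1 + 4 = (n + 4) + 1 by ring] at hp
    rcases base_succ.1 hp with h | ⟨q, hq, rfl⟩ | ⟨q, hq, rfl⟩
    · obtain ⟨A, hA, s, hs, e⟩ := ih p h
      exact ⟨A, base_mono hA, s, hs, e⟩
    · obtain ⟨A, hA, s, hs, rfl⟩ := ih q hq
      refine ⟨(A.1 + 2 ^ n, A.2), base_succ.2 (Or.inr (Or.inl ⟨A, hA, rfl⟩)), s, hs, ?_⟩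
      simp only [h2]; ext <;> simp; ring
    · obtain ⟨A, hA, s, hs, rfl⟩ := ih q hq
      refine ⟨(A.1, A.2 + 2 ^ n), base_succ.2 (Or.inr (Or.inr ⟨A, hA, rfl⟩)), s, hs, ?_⟩
      simp only [h2]; ext <;> simp; ring

theorem smallTri_of_base {s : ℕ × ℕ} (h : s ∈ base 4) : SmallTri s := by
  have := base_prop 4 s h
  exact ⟨by simpa using this.1, by simpa using this.2.1, this.2.2⟩

theorem smallTri_sum : ∀ i < 16, ∀ j < 16, i &&& j = 0 → i + j < 16 := by
  decide +kernel

theorem isV_sum {p : ℕ × ℕ} (h : IsV p) : p.1 + p.2 ≤ 16 := by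
  obtain ⟨⟨i, j⟩, ⟨h1, h2, h3⟩, hp⟩ := h
  have := smallTri_sum i h1 j h2 h3
  rw [mem_tri] at hp
  rcases hp with rfl | rfl | rfl <;> simp <;> omega

/-! ### points in tiles -/

/-- the point `p` is a vertex of the tile `A` -/
def Mem (A p : ℕ × ℕ) : Prop := 16 * A.1 ≤ p.1 ∧ 16 * A.2 ≤ p.2 ∧ IsV (p.1 - 16 * A.1, p.2 - 16 * A.2)

/-- local coordinates -/
def loc (A p : ℕ × ℕ) : ℕ × ℕ := (p.1 - 16 * A.1, p.2 - 16 * A.2)

theorem mem_sum {A p : ℕ × ℕ} (h : Mem A p) : (loc A p).1 + (loc A p).2 ≤ 16 := isV_sum h.2.2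

/-- an edge lies in one tile -/
theorem edge_tile {n : ℕ} {p q t : ℕ × ℕ} (ht : t ∈ base (n + 4)) (hp : p ∈ tri t) (hq : q ∈ tri t)
    (hne : p ≠ q) : ∃ A ∈ base n, Mem A p ∧ Mem A q ∧ Loc.Adj (loc A p) (loc A q) := by
  obtain ⟨A, hA, s, hs, rfl⟩ := base_tile n t ht
  have hs' := smallTri_of_base hs
  have key : ∀ x : ℕ × ℕ, x ∈ tri (16 * A.1 + s.1, 16 * A.2 + s.2) →
      16 * A.1 ≤ x.1 ∧ 16 * A.2 ≤ x.2 ∧ (x.1 - 16 * A.1, x.2 - 16 * A.2) ∈ tri s := by
    intro x hx
    rw [mem_tri] at hx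
    rcases hx with rfl | rfl | rfl
    · exact ⟨by simp, by simp, by rw [mem_tri]; left; ext <;> simp⟩
    · exact ⟨by simp; omega, by simp, by rw [mem_tri]; right; left; ext <;> simp; omega⟩
    · exact ⟨by simp, by simp; omega, by rw [mem_tri]; right; right; ext <;> simp; omega⟩
  have kp := key p hp
  have kq := key q hq
  refine ⟨A, hA, ⟨kp.1, kp.2.1, s, hs', kp.2.2⟩, ⟨kq.1, kq.2.1, s, hs', kq.2.2⟩, ?_, s, hs',
    kp.2.2, kq.2.2⟩
  intro h
  apply hne
  simp only [loc, Prod.mk.injEq] at h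
  ext <;> omega

theorem vert_tile {n : ℕ} {p t : ℕ × ℕ} (ht : t ∈ base (n + 4)) (hp : p ∈ tri t) :
    ∃ A ∈ base n, Mem A p := by
  have h1 : ∃ q ∈ tri t, p ≠ q := by
    by_cases h : p = t
    · refine ⟨(t.1 + 1, t.2), by rw [mem_tri]; simp, ?_⟩
      rw [h]
      intro h'
      have := congrArg Prod.fst h'
      simp at this
    · exact ⟨t, by rw [mem_tri]; simp, h⟩
  obtain ⟨q, hq, hne⟩ := h1
  obtain ⟨A, hA, h, _⟩ := edge_tile ht hp hq hne
  exact ⟨A, hA, h⟩

/-- the three corners of a tile, in local coordinates, with number -/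
def cornerAt (i : ℕ) : ℕ × ℕ := if i = 1 then (0, 0) else if i = 2 then (16, 0) else (0, 16)

/-- two different tiles meet only in common corners, which lead to each other -/
theorem tiles_meet {n : ℕ} {A B p : ℕ × ℕ} (hA : A ∈ base n) (hB : B ∈ base n) (hne : A ≠ B)
    (hpA : Mem A p) (hpB : Mem B p) : ∃ i j, i ∈ [1, 2, 3] ∧ j ∈ [1, 2, 3] ∧
      loc A p = cornerAt i ∧ loc B p = cornerAt j ∧
      lab n i A.1 A.2 = lab n 0 B.1 B.2 ∧ lab n j B.1 B.2 = lab n 0 A.1 A.2 := by
  obtain ⟨I, J⟩ := A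
  obtain ⟨I', J'⟩ := B
  obtain ⟨a, b⟩ := p
  have sA := mem_sum hpA
  have sB := mem_sum hpB
  obtain ⟨a1, a2, a3⟩ := base_prop n _ hA
  obtain ⟨b1, b2, b3⟩ := base_prop n _ hB
  have hne' : ¬ (I = I' ∧ J = J') := by
    rintro ⟨rfl, rfl⟩; exact hne rfl
  obtain ⟨m1, m2, _⟩ := hpA
  obtain ⟨m3, m4, _⟩ := hpB
  simp only [loc] at *
  have hI : I' = I ∨ I' = I + 1 ∨ I = I' + 1 := by omega
  have hJ : J' = J ∨ J' = J + 1 ∨ J = J' + 1 := by omega
  have hcase : (I' = I + 1 ∧ J' = J ∧ a = 16 * I + 16 ∧ b = 16 * J) ∨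
      (I = I' + 1 ∧ J' = J ∧ a = 16 * I' + 16 ∧ b = 16 * J) ∨
      (I' = I ∧ J' = J + 1 ∧ a = 16 * I ∧ b = 16 * J + 16) ∨
      (I' = I ∧ J = J' + 1 ∧ a = 16 * I ∧ b = 16 * J' + 16) ∨
      (I' = I + 1 ∧ J = J' + 1 ∧ a = 16 * I + 16 ∧ b = 16 * J' + 16) ∨
      (I = I' + 1 ∧ J' = J + 1 ∧ a = 16 * I' + 16 ∧ b = 16 * J + 16) := by
    rcases hI with hI | hI | hI <;> rcases hJ with hJ | hJ | hJ
    · exact absurd ⟨hI.symm, hJ.symm⟩ hne'
    · right; right; left; clear hne'; omega
    · right; right; right; left; clear hne'; omega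
    · left; clear hne'; omega
    · exfalso; omega
    · right; right; right; right; left; clear hne'; omega
    · right; left; clear hne'; omega
    · right; right; right; right; right; clear hne'; omega
    · exfalso; omega
  rcases hcase with ⟨rfl, rfl, rfl, rfl⟩ | ⟨rfl, rfl, rfl, rfl⟩ | ⟨rfl, rfl, rfl, rfl⟩ |
    ⟨rfl, rfl, rfl, rfl⟩ | ⟨rfl, rfl, rfl, rfl⟩ | ⟨rfl, rfl, rfl, rfl⟩
  · refine ⟨2, 1, by simp, by simp, by simp [cornerAt], ?_, opp12 n I J' b3 a3 b1⟩
    simp [cornerAt]; omega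
  · refine ⟨1, 2, by simp, by simp, ?_, by simp [cornerAt], (opp12 n I' J' a3 b3 a1).symm⟩
    simp [cornerAt]; omega
  · refine ⟨3, 1, by simp, by simp, by simp [cornerAt], ?_, opp13 n I' J b3 a3 b2⟩
    simp [cornerAt]; omega
  · refine ⟨1, 3, by simp, by simp, ?_, by simp [cornerAt], (opp13 n I' J' a3 b3 a2).symm⟩
    simp [cornerAt]; omega
  · refine ⟨2, 3, by simp, by simp, ?_, ?_, opp23 n I J' a3 b3 b1 a2⟩
    · simp [cornerAt]; omega
    · simp [cornerAt]; omega
  · refine ⟨3, 2, by simp, by simp, ?_, ?_, (opp23 n I' J b3 a3 a1 b2).symm⟩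
    · simp [cornerAt]; omega
    · simp [cornerAt]; omega

end Pool.Agent.Helper32.SierQ
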